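import Pool.Agent.TH817.Z3.StmH
import Pool.Agent.H337R2.Count
import Pool.Agent.H574R2.D3.H2

/-!
# Tasks H1 and H2: exponents and principal coefficients at `n = p`
-/

open Polynomial Pool.Agent.H337R2

namespace Pool.Agent.TH731.Z3

open Pool.Agent.TH817.Z3

noncomputable section

/-- the exponent at `n = p` is `0` -/
theorem H1 : StH1 := by
  intro p hp hp3 k
  have hpp : (0 : ℤ) < p := by exact_mod_cast hp.pos
  have key : ∀ a : ℤ, ∀ c : ℕ, (c : ℤ) = a * p + ((p / 2 : ℕ) : ℤ) →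
      ((c : ℤ) - k) / p = (((p / 2 : ℕ) : ℤ) - k) / p + a := by
    intro a c hc
    rw [hc, show a * p + ((p / 2 : ℕ) : ℤ) - k = (((p / 2 : ℕ) : ℤ) - k) + a * p by ring,
      Int.add_mul_ediv_right _ _ hpp.ne']
  have key' : ∀ a : ℤ, (a * p - k : ℤ) / p = (-(k : ℤ)) / p + a := by
    intro a
    rw [show (a * p - k : ℤ) = -(k : ℤ) + a * p by ring, Int.add_mul_ediv_right _ _ hpp.ne']
  have e1 : 9 * p / 2 / p = 4 := by
    rw [show 9 * p / 2 = p / 2 + 4 * p by omega, Nat.add_mul_div_right _ _ hp.pos,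
      Nat.div_eq_of_lt (by omega)]
  have e2 : 5 * p / 2 / p = 2 := by
    rw [show 5 * p / 2 = p / 2 + 2 * p by omega, Nat.add_mul_div_right _ _ hp.pos,
      Nat.div_eq_of_lt (by omega)]
  unfold eF
  rw [e1, e2, cnt_eq p (p / 2 + 1) (3 * p) k hp.pos (by omega),
    cnt_eq p (p + 1) (7 * p / 2) k hp.pos (by omega),
    cnt_eq p (7 * p / 2 + 1) (8 * p) k hp.pos (by omega),
    cnt_eq p (4 * p + 1) (17 * p / 2) k hp.pos (by omega)]
  have f1 : (((3 * p : ℕ) : ℤ) - k) / p = (-(k : ℤ)) / p + 3 := by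
    rw [← key' 3]; push_cast; rfl
  have f2 : ((((p / 2 + 1 : ℕ) : ℤ)) - 1 - k) / p = (((p / 2 : ℕ) : ℤ) - k) / p := by
    congr 1; push_cast; ring
  have f3 : (((7 * p / 2 : ℕ) : ℤ) - k) / p = (((p / 2 : ℕ) : ℤ) - k) / p + 3 := by
    apply key; omega
  have f4 : ((((p + 1 : ℕ) : ℤ)) - 1 - k) / p = (-(k : ℤ)) / p + 1 := by
    rw [← key' 1]; congr 1; push_cast; ring
  have f5 : (((8 * p : ℕ) : ℤ) - k) / p = (-(k : ℤ)) / p + 8 := by
    rw [← key' 8]; push_cast; rfl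
  have f6 : ((((7 * p / 2 + 1 : ℕ) : ℤ)) - 1 - k) / p = (((p / 2 : ℕ) : ℤ) - k) / p + 3 := by
    rw [← f3]; congr 1; push_cast; ring
  have f7 : (((17 * p / 2 : ℕ) : ℤ) - k) / p = (((p / 2 : ℕ) : ℤ) - k) / p + 8 := by
    apply key; omega
  have f8 : ((((4 * p + 1 : ℕ) : ℤ)) - 1 - k) / p = (-(k : ℤ)) / p + 4 := by
    rw [← key' 4]; congr 1; push_cast; ring
  rw [f1, f2, f3, f4, f5, f6, f7, f8]
  push_cast
  ring

namespace H2z

set_option linter.unusedSectionVars false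

open Pool.Agent.H336R2.HD.H2aux
open Pool.Agent.H574R2.D3.H2x (cls mem_cls prod_cls)

variable {p : ℕ} [hp : Fact p.Prime]

/-! ### blocks -/

/-- the members of the block `[a, b]` in the class of `r` are `r + j p`, `j ∈ J` -/
def Blk (p r a b : ℕ) (J : Finset ℕ) : Prop :=
  1 ≤ a ∧ b ≤ 12 * p ∧ ∀ i : ℕ, (a ≤ r + i * p ∧ r + i * p ≤ b) ↔ i ∈ J

/-- the other members of the block -/
def SB (p r a b : ℕ) (J : Finset ℕ) : Finset ℕ := Finset.Icc a b \ cls p r J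

lemma not_dvd_gen {r m : ℕ} (hr1 : 1 ≤ r) (hr2 : r ≤ p) (hm0 : 1 ≤ m) (hm : m ≤ 12 * p)
    (h : ∀ i, i < 12 → r + i * p ≠ m) : ¬ (p : ℤ) ∣ (m : ℤ) - r := by
  rintro ⟨c, hc⟩
  have hpp : (0 : ℤ) < p := by exact_mod_cast hp.out.pos
  have hc1 : c < 12 := by
    by_contra h
    have h5 : (p : ℤ) * 12 ≤ p * c := mul_le_mul_of_nonneg_left (by omega) hpp.le
    omega
  have hc2 : -1 < c := by
    by_contra h
    have h5 : (p : ℤ) * c ≤ p * (-1) := mul_le_mul_of_nonneg_left (by omega) hpp.le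
    omega
  apply h c.toNat (by omega)
  have h6 : ((c.toNat : ℕ) : ℤ) = c := Int.toNat_of_nonneg (by omega)
  have h7 : ((r + c.toNat * p : ℕ) : ℤ) = m := by
    push_cast
    rw [h6]
    linarith
  exact_mod_cast h7

lemma SB_not_dvd {r a b m : ℕ} {J : Finset ℕ} (hB : Blk p r a b J) (hr1 : 1 ≤ r) (hr2 : r ≤ p)
    (hm : m ∈ SB p r a b J) : ¬ (p : ℤ) ∣ (m : ℤ) - r := by
  unfold SB at hm
  rw [Finset.mem_sdiff, Finset.mem_Icc, mem_cls] at hm
  obtain ⟨⟨h0, h1⟩, h2⟩ := hm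
  obtain ⟨b1, b2, b3⟩ := hB
  apply not_dvd_gen hr1 hr2 (by omega) (by omega)
  intro i _ hi
  exact h2 ⟨i, (b3 i).1 (by rw [hi]; exact ⟨h0, h1⟩), hi⟩

lemma split_block {M : Type*} [CommMonoid M] {r a b : ℕ} {J : Finset ℕ} (hB : Blk p r a b J)
    (f : ℕ → M) : ∏ m ∈ Finset.Icc a b, f m =
      (∏ i ∈ J, f (r + i * p)) * ∏ m ∈ SB p r a b J, f m := by
  unfold SB
  apply prod_cls
  intro m hm
  rw [mem_cls] at hm
  obtain ⟨i, hi, rfl⟩ := hm
  rw [Finset.mem_Icc]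
  exact (hB.2.2 i).2 hi

lemma split_erase {M : Type*} [CommMonoid M] {r a b : ℕ} {J : Finset ℕ} (hB : Blk p r a b J)
    (j : ℕ) (f : ℕ → M) : ∏ m ∈ (Finset.Icc a b).erase (r + j * p), f m =
      (∏ i ∈ J.erase j, f (r + i * p)) * ∏ m ∈ SB p r a b J, f m := by
  have hpp : 0 < p := hp.out.pos
  have hsub : cls p r (J.erase j) ⊆ (Finset.Icc a b).erase (r + j * p) := by
    intro m hm
    rw [mem_cls] at hm
    obtain ⟨i, hi, rfl⟩ := hm
    rw [Finset.mem_erase] at hi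
    rw [Finset.mem_erase, Finset.mem_Icc]
    refine ⟨?_, (hB.2.2 i).2 hi.2⟩
    intro h
    apply hi.1
    have h7 : i * p = j * p := by omega
    exact Nat.eq_of_mul_eq_mul_right hpp h7
  have hset : (Finset.Icc a b).erase (r + j * p) \ cls p r (J.erase j) = SB p r a b J := by
    ext m
    unfold SB
    rw [Finset.mem_sdiff, Finset.mem_sdiff, Finset.mem_erase, mem_cls, mem_cls]
    constructor
    · rintro ⟨⟨h1, h2⟩, h3⟩
      refine ⟨h2, ?_⟩
      rintro ⟨i, hi, hm⟩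
      apply h3
      refine ⟨i, ?_, hm⟩
      rw [Finset.mem_erase]
      refine ⟨?_, hi⟩
      rintro rfl
      exact h1 hm.symm
    · rintro ⟨h1, h2⟩
      refine ⟨⟨?_, h1⟩, ?_⟩
      · rintro rfl
        exact h2 ⟨j, (hB.2.2 j).1 (Finset.mem_Icc.1 h1), rfl⟩
      · rintro ⟨i, hi, hm⟩
        exact h2 ⟨i, Finset.mem_of_mem_erase hi, hm⟩
  rw [prod_cls (p := p) r _ _ hsub, hset]

lemma blk_gen {r a b u v : ℕ} (h1 : 1 ≤ a) (h2 : b < 9 * p) (hv : v < 9)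
    (h : ∀ i, i < 9 → ((a ≤ r + i * p ∧ r + i * p ≤ b) ↔ (u ≤ i ∧ i ≤ v))) :
    Blk p r a b (Finset.Icc u v) := by
  refine ⟨h1, by omega, fun i => ?_⟩
  rw [Finset.mem_Icc]
  rcases Nat.lt_or_ge i 9 with hi | hi
  · exact h i hi
  · have h5 : 9 * p ≤ i * p := Nat.mul_le_mul_right p hi
    constructor
    · rintro ⟨_, h6⟩
      omega
    · rintro ⟨_, h6⟩
      omega

lemma blk_Z1 (hp100 : 100 ≤ p) {r : ℕ} (hr1 : 1 ≤ r) (hr2 : r ≤ p) :
    Blk p r (p / 2 + 1) (3 * p) (Z1 (typ p r)) := by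
  unfold Z1 typ
  by_cases h : p / 2 < r
  · rw [decide_eq_true h, if_pos rfl]
    apply blk_gen (by omega) (by omega) (by omega)
    intro i hi
    interval_cases i <;> omega
  · rw [decide_eq_false h, if_neg (by simp)]
    apply blk_gen (by omega) (by omega) (by omega)
    intro i hi
    interval_cases i <;> omega

lemma blk_Z2 (hp100 : 100 ≤ p) {r : ℕ} (hr1 : 1 ≤ r) (hr2 : r ≤ p) :
    Blk p r (p + 1) (7 * p / 2) (Z2 (typ p r)) := by
  unfold Z2 typ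
  by_cases h : p / 2 < r
  · rw [decide_eq_true h, if_pos rfl]
    apply blk_gen (by omega) (by omega) (by omega)
    intro i hi
    interval_cases i <;> omega
  · rw [decide_eq_false h, if_neg (by simp)]
    apply blk_gen (by omega) (by omega) (by omega)
    intro i hi
    interval_cases i <;> omega

lemma blk_P1 (hp100 : 100 ≤ p) {r : ℕ} (hr1 : 1 ≤ r) (hr2 : r ≤ p) :
    Blk p r (7 * p / 2 + 1) (8 * p) (P1 (typ p r)) := by
  unfold P1 typ
  by_cases h : p / 2 < r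
  · rw [decide_eq_true h, if_pos rfl]
    apply blk_gen (by omega) (by omega) (by omega)
    intro i hi
    interval_cases i <;> omega
  · rw [decide_eq_false h, if_neg (by simp)]
    apply blk_gen (by omega) (by omega) (by omega)
    intro i hi
    interval_cases i <;> omega

lemma blk_P2 (hp100 : 100 ≤ p) {r : ℕ} (hr1 : 1 ≤ r) (hr2 : r ≤ p) :
    Blk p r (4 * p + 1) (17 * p / 2) (P2 (typ p r)) := by
  unfold P2 typ
  by_cases h : p / 2 < r
  · rw [decide_eq_true h, if_pos rfl]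
    apply blk_gen (by omega) (by omega) (by omega)
    intro i hi
    interval_cases i <;> omega
  · rw [decide_eq_false h, if_neg (by simp)]
    apply blk_gen (by omega) (by omega) (by omega)
    intro i hi
    interval_cases i <;> omega

lemma mF_ml (hp100 : 100 ≤ p) {r : ℕ} (hr1 : 1 ≤ r) (hr2 : r ≤ p) {j : ℕ}
    (h1 : 1 ≤ ml (typ p r) j) : mF p (r + j * p) = ml (typ p r) j := by
  have b1 := (blk_P1 hp100 hr1 hr2).2.2 j
  have b2 := (blk_P2 hp100 hr1 hr2).2.2 j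
  unfold ml at h1 ⊢
  unfold mF
  have h3 : j ∈ P1 (typ p r) ∨ j ∈ P2 (typ p r) := by
    by_contra hc
    push Not at hc
    rw [if_neg hc.1, if_neg hc.2] at h1
    omega
  have h4 : (r + j * p ≤ 8 * p) ↔ j ∈ P1 (typ p r) := by
    rw [← b1]
    constructor
    · intro h
      refine ⟨?_, h⟩
      rcases h3 with h3 | h3
      · exact (b1.2 h3).1
      · have := (b2.2 h3).1
        omega
    · exact fun h => h.2
  have h5 : (4 * p < r + j * p) ↔ j ∈ P2 (typ p r) := by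
    rw [← b2]
    constructor
    · intro h
      refine ⟨h, ?_⟩
      rcases h3 with h3 | h3
      · have := (b1.2 h3).2
        omega
      · exact (b2.2 h3).2
    · exact fun h => h.1
  simp only [h4, h5]

/-! ### the exact part -/

/-- the exact part -/
def FM (p : ℕ) (b : Bool) (j e : ℕ) : PowerSeries ℚ :=
  (∏ a ∈ Z1 b, (PowerSeries.X + PowerSeries.C (((a : ℚ) - j) * p))) *
  (∏ a ∈ Z2 b, (PowerSeries.X + PowerSeries.C (((a : ℚ) - j) * p))) *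
  (∏ c ∈ (P1 b).erase j, iv (((c : ℚ) - j) * p)) *
  (∏ c ∈ (P2 b).erase j, iv (((c : ℚ) - j) * p)) *
  (PowerSeries.X + PowerSeries.C (-(j : ℚ) * p)) ^ e

lemma card_Z (b : Bool) : (Z1 b).card + (Z2 b).card = 5 := by
  cases b <;> decide

lemma card_P (b : Bool) {j : ℕ} (hj3 : 3 ≤ j) (hj8 : j ≤ 8) :
    ((P1 b).erase j).card + ((P2 b).erase j).card = 9 - ml b j := by
  interval_cases j <;> cases b <;> decide

lemma ml_le (b : Bool) (j : ℕ) : ml b j ≤ 2 := by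
  unfold ml
  split_ifs <;> omega

lemma lin_prod (hp0 : (p : ℚ) ≠ 0) (s : Finset ℕ) (j : ℕ) :
    ∏ a ∈ s, (PowerSeries.X + PowerSeries.C (((a : ℚ) - j) * p) : PowerSeries ℚ) =
      PowerSeries.C (p : ℚ) ^ s.card * PowerSeries.rescale ((p : ℚ)⁻¹)
        (∏ a ∈ s, (PowerSeries.X + PowerSeries.C ((a : ℚ) - j))) := by
  rw [map_prod, ← Finset.prod_const, ← Finset.prod_mul_distrib]
  apply Finset.prod_congr rfl
  intro b _
  rw [lin_rescale hp0]

lemma iv_prod (hp0 : (p : ℚ) ≠ 0) (s : Finset ℕ) (j : ℕ) :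
    ∏ c ∈ s, iv (((c : ℚ) - j) * p) =
      PowerSeries.C ((p : ℚ)⁻¹) ^ s.card * PowerSeries.rescale ((p : ℚ)⁻¹)
        (∏ c ∈ s, iv ((c : ℚ) - j)) := by
  rw [map_prod, ← Finset.prod_const, ← Finset.prod_mul_distrib]
  apply Finset.prod_congr rfl
  intro b _
  rw [iv_rescale hp0]

lemma FM_eq (hp0 : (p : ℚ) ≠ 0) (b : Bool) {j : ℕ} (hj3 : 3 ≤ j) (hj8 : j ≤ 8) (e : ℕ) :
    FM p b j e =
    PowerSeries.C ((p : ℚ) ^ 5 * ((p : ℚ)⁻¹) ^ (9 - ml b j) * (p : ℚ) ^ e) *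
      PowerSeries.rescale ((p : ℚ)⁻¹) (ser b j e) := by
  unfold FM ser
  rw [lin_prod hp0, lin_prod hp0, iv_prod hp0, iv_prod hp0, lin_rescale hp0, ← card_P b hj3 hj8,
    ← card_Z b]
  generalize (∏ c ∈ (P1 b).erase j, iv ((c : ℚ) - j)) = PI0
  generalize (∏ c ∈ (P2 b).erase j, iv ((c : ℚ) - j)) = PI3
  generalize (∏ a ∈ Z1 b, (PowerSeries.X + PowerSeries.C ((a : ℚ) - j) : PowerSeries ℚ)) = PI1
  generalize (∏ a ∈ Z2 b, (PowerSeries.X + PowerSeries.C ((a : ℚ) - j) : PowerSeries ℚ)) = PI2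
  simp only [map_mul, map_pow, pow_add]
  ring

lemma FM_coeff (hp0 : (p : ℚ) ≠ 0) (b : Bool) {j : ℕ} (hj3 : 3 ≤ j) (hj8 : j ≤ 8) (e l : ℕ) :
    PowerSeries.coeff l (FM p b j e) =
    (p : ℚ) ^ 5 * ((p : ℚ)⁻¹) ^ (9 - ml b j) * (p : ℚ) ^ e *
      (((p : ℚ)⁻¹) ^ l * PowerSeries.coeff l (ser b j e)) := by
  rw [FM_eq hp0 b hj3 hj8, PowerSeries.coeff_C_mul, PowerSeries.coeff_rescale]

lemma lin_PB (s : Finset ℕ) (j : ℕ) : PB p (p : ℚ) (((p : ℚ)⁻¹) ^ s.card)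
    (∏ a ∈ s, (PowerSeries.X + PowerSeries.C (((a : ℚ) - j) * p))) := by
  have hp0 : (0 : ℚ) ≤ p := p_pos'.le
  rw [← Finset.prod_const]
  apply PB.prod _ _ _ hp0
  · intro b _; positivity
  · intro b _
    exact PB_linp ((b : ℤ) - (j : ℤ)) (by push_cast; ring)

lemma iv_PB (hp100 : 100 ≤ p) (s : Finset ℕ) (j : ℕ) (hj : j ≤ 8) (hs : ∀ c ∈ s, c ≤ 8) :
    PB p (p : ℚ) ((p : ℚ) ^ (s.erase j).card) (∏ c ∈ s.erase j, iv (((c : ℚ) - j) * p)) := by
  have hp0 : (0 : ℚ) ≤ p := p_pos'.le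
  rw [← Finset.prod_const]
  apply PB.prod _ _ _ hp0
  · intro b _; positivity
  · intro b hb
    rw [Finset.mem_erase] at hb
    have := hs b hb.2
    apply PB_ivp (a := (b : ℤ) - j) (by push_cast; ring)
    apply not_dvd_of_lt
    · have := hb.1
      omega
    · omega
    · omega

lemma P1_le (b : Bool) : ∀ c ∈ P1 b, c ≤ 8 := by
  intro c hc
  unfold P1 at hc
  cases b
  · rw [if_neg (by simp), Finset.mem_Icc] at hc; omega
  · rw [if_pos rfl, Finset.mem_Icc] at hc; omega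

lemma P2_le (b : Bool) : ∀ c ∈ P2 b, c ≤ 8 := by
  intro c hc
  unfold P2 at hc
  cases b
  · rw [if_neg (by simp), Finset.mem_Icc] at hc; omega
  · rw [if_pos rfl, Finset.mem_Icc] at hc; omega

lemma FM_PB (hp100 : 100 ≤ p) (b : Bool) {j : ℕ} (hj3 : 3 ≤ j) (hj8 : j ≤ 8) (e : ℕ) :
    PB p (p : ℚ) (((p : ℚ)⁻¹) ^ 5 * (p : ℚ) ^ (9 - ml b j) * ((p : ℚ)⁻¹) ^ e) (FM p b j e) := by
  have hp0 : (0 : ℚ) ≤ p := p_pos'.le
  have hinv : (0 : ℚ) ≤ (p : ℚ)⁻¹ := inv_nonneg.2 hp0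
  have e1 : PB p (p : ℚ) (p : ℚ)⁻¹ (PowerSeries.X + PowerSeries.C (-(j : ℚ) * p)) :=
    PB_linp (-(j : ℤ)) (by push_cast; ring)
  have f3 := PB.pow hp0 hinv e1 e
  rw [← card_P b hj3 hj8, ← card_Z b, pow_add, pow_add, ← mul_assoc]
  exact PB.mul hp0 (by positivity) (by positivity) (PB.mul hp0 (by positivity) (by positivity)
    (PB.mul hp0 (by positivity) (by positivity) (PB.mul hp0 (by positivity) (by positivity)
      (lin_PB _ _) (lin_PB _ _)) (iv_PB hp100 _ _ hj8 (P1_le b)))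
      (iv_PB hp100 _ _ hj8 (P2_le b))) f3

/-! ### the unit part -/

/-- the constant -/
def wM (p r : ℕ) : ℚ :=
  (∏ m ∈ SB p r (p / 2 + 1) (3 * p) (Z1 (typ p r)), ((m : ℚ) - r)) *
  (∏ m ∈ SB p r (p + 1) (7 * p / 2) (Z2 (typ p r)), ((m : ℚ) - r)) *
  (∏ r' ∈ (Finset.Icc 1 p).erase r, ((r' : ℚ) - r) ^ 4) *
  (∏ m ∈ SB p r (7 * p / 2 + 1) (8 * p) (P1 (typ p r)), ((m : ℚ) - r)⁻¹) *
  ∏ m ∈ SB p r (4 * p + 1) (17 * p / 2) (P2 (typ p r)), ((m : ℚ) - r)⁻¹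

/-- the unit part -/
def GM (p r k : ℕ) : PowerSeries ℚ :=
  (∏ m ∈ SB p r (p / 2 + 1) (3 * p) (Z1 (typ p r)),
    (PowerSeries.X + PowerSeries.C (-(k : ℚ) + m))) *
  (∏ m ∈ SB p r (p + 1) (7 * p / 2) (Z2 (typ p r)),
    (PowerSeries.X + PowerSeries.C (-(k : ℚ) + m))) *
  (∏ r' ∈ (Finset.Icc 1 p).erase r, (PowerSeries.X + PowerSeries.C (-(k : ℚ) + r')) ^ 4) *
  (∏ m ∈ SB p r (7 * p / 2 + 1) (8 * p) (P1 (typ p r)), iv (-(k : ℚ) + m)) *
  ∏ m ∈ SB p r (4 * p + 1) (17 * p / 2) (P2 (typ p r)), iv (-(k : ℚ) + m)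

lemma UC_SB_lin {r a b : ℕ} {J : Finset ℕ} (hB : Blk p r a b J) (hr1 : 1 ≤ r) (hr2 : r ≤ p)
    (j : ℕ) : UC p (∏ m ∈ SB p r a b J,
      (PowerSeries.X + PowerSeries.C (-((r + j * p : ℕ) : ℚ) + m)))
      (∏ m ∈ SB p r a b J, ((m : ℚ) - r)) := by
  apply UC.prod
  intro m hm
  apply UC.lin (a := -((r + j * p : ℕ) : ℤ) + m) (a0 := (m : ℤ) - r)
  · push_cast; ring
  · push_cast; ring
  · exact SB_not_dvd hB hr1 hr2 hm
  · refine ⟨-j, ?_⟩
    push_cast; ring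

lemma UC_SB_iv {r a b : ℕ} {J : Finset ℕ} (hB : Blk p r a b J) (hr1 : 1 ≤ r) (hr2 : r ≤ p)
    (j : ℕ) : UC p (∏ m ∈ SB p r a b J, iv (-((r + j * p : ℕ) : ℚ) + m))
      (∏ m ∈ SB p r a b J, ((m : ℚ) - r)⁻¹) := by
  apply UC.prod
  intro m hm
  apply UC.iv (a := -((r + j * p : ℕ) : ℤ) + m) (a0 := (m : ℤ) - r)
  · push_cast; ring
  · push_cast; ring
  · exact SB_not_dvd hB hr1 hr2 hm
  · refine ⟨-j, ?_⟩
    push_cast; ring

lemma GM_UC (hp100 : 100 ≤ p) {r : ℕ} (hr1 : 1 ≤ r) (hr2 : r ≤ p) (j : ℕ) :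
    UC p (GM p r (r + j * p)) (wM p r) := by
  unfold GM wM
  refine UC.mul (UC.mul (UC.mul (UC.mul ?_ ?_) ?_) ?_) ?_
  · exact UC_SB_lin (blk_Z1 hp100 hr1 hr2) hr1 hr2 j
  · exact UC_SB_lin (blk_Z2 hp100 hr1 hr2) hr1 hr2 j
  · apply UC.prod
    intro r' hr'
    rw [Finset.mem_erase, Finset.mem_Icc] at hr'
    apply UC.pow
    apply UC.lin (a := -((r + j * p : ℕ) : ℤ) + r') (a0 := (r' : ℤ) - r)
    · push_cast; ring
    · push_cast; ring
    · exact not_dvd_of_lt (by omega) (by omega) (by omega)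
    · refine ⟨-j, ?_⟩
      push_cast; ring
  · exact UC_SB_iv (blk_P1 hp100 hr1 hr2) hr1 hr2 j
  · exact UC_SB_iv (blk_P2 hp100 hr1 hr2) hr1 hr2 j

/-! ### the numerator -/

lemma TS_num2 (p r e k : ℕ) : TS (-(k : ℚ)) (PF p * ((X + C (r : ℚ)) ^ e * OT p r 4)) =
    PowerSeries.C (cF p) *
    ((∏ m ∈ Finset.Icc (p / 2 + 1) (3 * p), (PowerSeries.X + PowerSeries.C (-(k : ℚ) + m))) *
      ∏ m ∈ Finset.Icc (p + 1) (7 * p / 2), (PowerSeries.X + PowerSeries.C (-(k : ℚ) + m))) *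
    ((PowerSeries.X + PowerSeries.C (-(k : ℚ) + r)) ^ e *
    ∏ r' ∈ (Finset.Icc 1 p).erase r, (PowerSeries.X + PowerSeries.C (-(k : ℚ) + r')) ^ 4) := by
  unfold PF OT
  simp only [map_mul, map_pow, map_prod, TS_C, TS_lin]

lemma prod_two {M : Type*} [CommMonoid M] (f : ℕ → M) (A B C' D k : ℕ) (h1 : B ≤ D)
    (h2 : A ≤ C' + 1) :
    ∏ m ∈ (Finset.Icc A D).erase k, f m ^ ((if m ≤ B then 1 else 0) + (if C' < m then 1 else 0)) =
      (∏ m ∈ (Finset.Icc A B).erase k, f m) * ∏ m ∈ (Finset.Icc (C' + 1) D).erase k, f m := by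
  simp only [pow_add]
  rw [Finset.prod_mul_distrib]
  congr 1
  · have h3 : (Finset.Icc A B).erase k = ((Finset.Icc A D).erase k).filter (fun m => m ≤ B) := by
      ext m
      simp only [Finset.mem_erase, Finset.mem_Icc, Finset.mem_filter]
      constructor
      · rintro ⟨h4, h5, h6⟩
        exact ⟨⟨h4, h5, by omega⟩, h6⟩
      · rintro ⟨⟨h4, h5, _⟩, h6⟩
        exact ⟨h4, h5, h6⟩
    rw [h3, Finset.prod_filter]
    refine Finset.prod_congr rfl fun m _ => ?_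
    split_ifs
    · rw [pow_one]
    · rw [pow_zero]
  · have h3 : (Finset.Icc (C' + 1) D).erase k =
        ((Finset.Icc A D).erase k).filter (fun m => C' < m) := by
      ext m
      simp only [Finset.mem_erase, Finset.mem_Icc, Finset.mem_filter]
      constructor
      · rintro ⟨h4, h5, h6⟩
        exact ⟨⟨h4, by omega, h6⟩, by omega⟩
      · rintro ⟨⟨h4, _, h5⟩, h6⟩
        exact ⟨h4, by omega, h5⟩
    rw [h3, Finset.prod_filter]
    refine Finset.prod_congr rfl fun m _ => ?_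
    split_ifs
    · rw [pow_one]
    · rw [pow_zero]

/-- the factorisation -/
lemma factor2 (hp100 : 100 ≤ p) {r : ℕ} (hr1 : 1 ≤ r) (hr2 : r ≤ p) (j e : ℕ) :
    TS (-((r + j * p : ℕ) : ℚ)) (PF p * ((X + C (r : ℚ)) ^ e * OT p r 4)) *
      VV ((sF p).erase (r + j * p)) (mF p) (-((r + j * p : ℕ) : ℚ)) =
    PowerSeries.C (cF p) * (FM p (typ p r) j e * GM p r (r + j * p)) := by
  have hVV : VV ((sF p).erase (r + j * p)) (mF p) (-((r + j * p : ℕ) : ℚ)) =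
      ∏ m ∈ (Finset.Icc (7 * p / 2 + 1) (17 * p / 2)).erase (r + j * p),
        iv (-((r + j * p : ℕ) : ℚ) + m) ^ ((if m ≤ 8 * p then 1 else 0) +
          (if 4 * p < m then 1 else 0)) := rfl
  rw [TS_num2, hVV, prod_two (fun m : ℕ => iv (-((r + j * p : ℕ) : ℚ) + m)) _ _ _ _ _ (by omega)
    (by omega), split_erase (blk_P1 hp100 hr1 hr2) j, split_erase (blk_P2 hp100 hr1 hr2) j,
    split_block (blk_Z1 hp100 hr1 hr2), split_block (blk_Z2 hp100 hr1 hr2)]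
  have v1 : -((r + j * p : ℕ) : ℚ) + (r : ℚ) = -(j : ℚ) * p := by push_cast; ring
  have h6 : ∀ b : ℕ, -((r + j * p : ℕ) : ℚ) + ((r + b * p : ℕ) : ℚ) = ((b : ℚ) - j) * p := by
    intro b
    push_cast
    ring
  simp only [h6]
  rw [v1]
  unfold FM GM
  generalize ∏ m ∈ SB p r (p / 2 + 1) (3 * p) (Z1 (typ p r)),
    (PowerSeries.X + PowerSeries.C (-((r + j * p : ℕ) : ℚ) + m) : PowerSeries ℚ) = a1
  generalize ∏ m ∈ SB p r (p + 1) (7 * p / 2) (Z2 (typ p r)),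
    (PowerSeries.X + PowerSeries.C (-((r + j * p : ℕ) : ℚ) + m) : PowerSeries ℚ) = a2
  generalize ∏ m ∈ SB p r (7 * p / 2 + 1) (8 * p) (P1 (typ p r)),
    iv (-((r + j * p : ℕ) : ℚ) + m) = a3
  generalize ∏ m ∈ SB p r (4 * p + 1) (17 * p / 2) (P2 (typ p r)),
    iv (-((r + j * p : ℕ) : ℚ) + m) = a4
  generalize ∏ r' ∈ (Finset.Icc 1 p).erase r,
    (PowerSeries.X + PowerSeries.C (-((r + j * p : ℕ) : ℚ) + r') : PowerSeries ℚ) ^ 4 = a5
  generalize (PowerSeries.X + PowerSeries.C (-(j : ℚ) * p)) ^ e = a6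
  generalize ∏ i ∈ Z1 (typ p r),
    (PowerSeries.X + PowerSeries.C (((i : ℚ) - j) * p) : PowerSeries ℚ) = a7
  generalize ∏ i ∈ Z2 (typ p r),
    (PowerSeries.X + PowerSeries.C (((i : ℚ) - j) * p) : PowerSeries ℚ) = a8
  generalize ∏ c ∈ (P1 (typ p r)).erase j, iv (((c : ℚ) - j) * p) = a9
  generalize ∏ c ∈ (P2 (typ p r)).erase j, iv (((c : ℚ) - j) * p) = a10
  ring

lemma norm_cF (hp100 : 100 ≤ p) : padicNorm p (cF p) = ((p : ℚ)⁻¹) ^ 4 := by
  have hpp : (0 : ℚ) < p := p_pos'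
  have hf : ∀ a c : ℕ, a ≤ 10 → c / p = a → c < 10 * p →
      padicNorm p ((c.factorial : ℕ) : ℚ) = ((p : ℚ)⁻¹) ^ a := by
    intro a c ha hc hc2
    have h1 : c < p ^ 2 := by nlinarith
    rw [norm_factorial h1, hc]
    simp
  have e1 : 9 * p / 2 / p = 4 := by
    rw [show 9 * p / 2 = p / 2 + 4 * p by omega, Nat.add_mul_div_right _ _ (by omega),
      Nat.div_eq_of_lt (by omega)]
  have e2 : 5 * p / 2 / p = 2 := by
    rw [show 5 * p / 2 = p / 2 + 2 * p by omega, Nat.add_mul_div_right _ _ (by omega),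
      Nat.div_eq_of_lt (by omega)]
  unfold cF
  rw [padicNorm.div]
  push_cast
  rw [padicNorm_pow', padicNorm_pow', hf 4 _ (by norm_num) e1 (by omega),
    hf 2 _ (by norm_num) e2 (by omega)]
  field_simp

end H2z

open H2z
open Pool.Agent.H336R2.HD.H2aux (coeff_mul_UC)

theorem H2 : StH2 := by
  intro p _ hp r hr1 hr2
  have hp0 : (p : ℚ) ≠ 0 := p_pos'.ne'
  have hpp : (0 : ℚ) < p := p_pos'
  have hcst := norm_cF hp
  refine ⟨cF p / (p : ℚ) ^ 4 * wM p r, ?_, ?_⟩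
  · have h0 := (GM_UC hp hr1 hr2 0).1
    rw [padicNorm.mul, padicNorm.div, hcst, h0, padicNorm_pow', padicNorm.padicNorm_p_of_prime, mul_one]
    exact div_self (by positivity)
  · intro e j i he hj3 hj8 hi1 hi2
    have hm := mF_ml hp hr1 hr2 (j := j) (by omega)
    have hml := ml_le (typ p r) j
    unfold pa
    rw [hm, if_pos hi2]
    unfold pfc
    rw [factor2 hp hr1 hr2 j e, PowerSeries.coeff_C_mul]
    set b := typ p r with hb
    set μ := ml b j with hμ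
    have h1 := coeff_mul_UC (p := p) (by positivity) (FM_PB hp b hj3 hj8 e) (GM_UC hp hr1 hr2 j)
      (μ - i)
    have h2 := FM_coeff hp0 b hj3 hj8 e (μ - i)
    rw [← hμ] at h1 h2
    show padicNorm p (cF p * PowerSeries.coeff (μ - i) (FM p b j e * GM p r (r + j * p)) /
      (p : ℚ) ^ (i + e) - _) ≤ _
    set X1 := PowerSeries.coeff (μ - i) (FM p b j e * GM p r (r + j * p)) with hX1
    set X2 := PowerSeries.coeff (μ - i) (FM p b j e) with hX2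
    set q : ℚ := (p : ℚ)⁻¹ with hq
    have hq0 : q ≠ 0 := inv_ne_zero hp0
    have hqpos : 0 < q := inv_pos.2 hpp
    have hpq : (p : ℚ) * q = 1 := mul_inv_cancel₀ hp0
    have hpow : (p : ℚ) ^ 5 * q ^ (9 - μ) * (p : ℚ) ^ e * q ^ (μ - i) * (p : ℚ) ^ 4 =
        (p : ℚ) ^ (i + e) := by
      have h3 : q ^ (9 - μ) * q ^ (μ - i) * (p : ℚ) ^ 9 = (p : ℚ) ^ i := by
        have h4 : (p : ℚ) ^ 9 = (p : ℚ) ^ (9 - μ) * (p : ℚ) ^ (μ - i) * (p : ℚ) ^ i := by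
          rw [← pow_add, ← pow_add]; congr 1; omega
        rw [h4]
        calc q ^ (9 - μ) * q ^ (μ - i) * ((p : ℚ) ^ (9 - μ) * (p : ℚ) ^ (μ - i) * (p : ℚ) ^ i)
            = ((p : ℚ) * q) ^ (9 - μ) * ((p : ℚ) * q) ^ (μ - i) * (p : ℚ) ^ i := by
              rw [mul_pow, mul_pow]; ring
          _ = (p : ℚ) ^ i := by rw [hpq, one_pow, one_pow, one_mul, one_mul]
      calc (p : ℚ) ^ 5 * q ^ (9 - μ) * (p : ℚ) ^ e * q ^ (μ - i) * (p : ℚ) ^ 4
          = (q ^ (9 - μ) * q ^ (μ - i) * (p : ℚ) ^ 9) * (p : ℚ) ^ e := by ring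
        _ = (p : ℚ) ^ (i + e) := by rw [h3, pow_add]
    have h6 : cF p * X1 / (p : ℚ) ^ (i + e) -
        cF p / (p : ℚ) ^ 4 * wM p r * PowerSeries.coeff (μ - i) (ser b j e) =
        cF p / (p : ℚ) ^ (i + e) * (X1 - X2 * wM p r) := by
      rw [h2, mul_sub]
      congr 1
      · ring
      · rw [← hpow]
        have h7 : q ^ (9 - μ) ≠ 0 := by positivity
        have h8 : q ^ (μ - i) ≠ 0 := by positivity
        generalize q ^ (9 - μ) = c1 at *
        generalize q ^ (μ - i) = c2 at *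
        field_simp
    rw [h6, padicNorm.mul, padicNorm.div, hcst, padicNorm_pow', padicNorm.padicNorm_p_of_prime]
    calc q ^ 4 / q ^ (i + e) * padicNorm p (X1 - X2 * wM p r)
        ≤ q ^ 4 / q ^ (i + e) *
          (q ^ 5 * (p : ℚ) ^ (9 - μ) * q ^ e * q * (p : ℚ) ^ (μ - i)) :=
          mul_le_mul_of_nonneg_left h1 (by positivity)
      _ = q := by
        have h9 : (p : ℚ) ^ (9 - μ) * (p : ℚ) ^ (μ - i) * q ^ 9 = q ^ i := by
          have h4 : q ^ 9 = q ^ (9 - μ) * q ^ (μ - i) * q ^ i := by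
            rw [← pow_add, ← pow_add]; congr 1; omega
          rw [h4]
          calc (p : ℚ) ^ (9 - μ) * (p : ℚ) ^ (μ - i) * (q ^ (9 - μ) * q ^ (μ - i) * q ^ i)
              = ((p : ℚ) * q) ^ (9 - μ) * ((p : ℚ) * q) ^ (μ - i) * q ^ i := by
                rw [mul_pow, mul_pow]; ring
            _ = q ^ i := by rw [hpq, one_pow, one_pow, one_mul, one_mul]
        have h10 : q ^ (i + e) ≠ 0 := by positivity
        rw [div_mul_eq_mul_div, div_eq_iff h10]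
        calc q ^ 4 * (q ^ 5 * (p : ℚ) ^ (9 - μ) * q ^ e * q * (p : ℚ) ^ (μ - i))
            = ((p : ℚ) ^ (9 - μ) * (p : ℚ) ^ (μ - i) * q ^ 9) * (q ^ e * q) := by ring
          _ = q * q ^ (i + e) := by
            rw [h9, pow_add]; ring

end

end Pool.Agent.TH731.Z3
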